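import Pool.Agent.H18.TE.Targets

/-!
# BCH: degrees do not change if two variables are added (helper68, board bkh_modules)
-/

open MvPolynomial
open Pool.Agent.H12.ZD (pmap v O Res DenseOrbit NoInv)
open Pool.Agent.H18.HIT
open Pool.Agent.H8.ZA (HFam Const NA sz)
open Pool.Agent.H8.TD
open Pool.Agent.H18.TE

namespace Pool.Agent.H68.BKH

section

variable {k K : Type} [Field k] [Field K] [Algebra k K] (u : K)

/-- the inclusion of the polynomials over `k (u)` in the function field -/
noncomputable def gg : MvPolynomial (Fin 2) (IntermediateField.adjoin k {u}) →ₐ[k]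
    FractionRing (MvPolynomial (Fin 2) K) :=
  (IsScalarTower.toAlgHom k (MvPolynomial (Fin 2) K)
    (FractionRing (MvPolynomial (Fin 2) K))).comp
    (MvPolynomial.mapAlgHom (IntermediateField.adjoin k {u}).val)

lemma gg_apply (p : MvPolynomial (Fin 2) (IntermediateField.adjoin k {u})) :
    gg u p = algebraMap (MvPolynomial (Fin 2) K) (FractionRing (MvPolynomial (Fin 2) K))
      (MvPolynomial.map (algebraMap (IntermediateField.adjoin k {u}) K) p) := rfl

lemma gg_inj : Function.Injective (gg (k := k) u) := by
  intro p q h
  rw [gg_apply, gg_apply] at h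
  exact MvPolynomial.map_injective _ (algebraMap (IntermediateField.adjoin k {u}) K).injective
    (IsFractionRing.injective (MvPolynomial (Fin 2) K)
      (FractionRing (MvPolynomial (Fin 2) K)) h)

lemma gg_C (a : IntermediateField.adjoin k {u}) : gg u (C a) =
    algebraMap K (FractionRing (MvPolynomial (Fin 2) K)) (a : K) := by
  rw [gg_apply, MvPolynomial.map_C, IsScalarTower.algebraMap_apply K (MvPolynomial (Fin 2) K)
    (FractionRing (MvPolynomial (Fin 2) K))]
  rfl

lemma gg_X (i : Fin 2) : gg (k := k) u (X i) = algebraMap (MvPolynomial (Fin 2) K)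
    (FractionRing (MvPolynomial (Fin 2) K)) (X i) := by
  rw [gg_apply, MvPolynomial.map_X]

/-- the three generators -/
noncomputable def gens : Set (FractionRing (MvPolynomial (Fin 2) K)) :=
  {algebraMap K (FractionRing (MvPolynomial (Fin 2) K)) u,
    algebraMap (MvPolynomial (Fin 2) K) (FractionRing (MvPolynomial (Fin 2) K)) (X 0),
    algebraMap (MvPolynomial (Fin 2) K) (FractionRing (MvPolynomial (Fin 2) K)) (X 1)}

lemma adjoin_eq : IntermediateField.adjoin k ((gg (k := k) u).range :
    Set (FractionRing (MvPolynomial (Fin 2) K))) = IntermediateField.adjoin k (gens u) := by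
  have hu : algebraMap K (FractionRing (MvPolynomial (Fin 2) K)) u ∈
      IntermediateField.adjoin k (gens u) :=
    IntermediateField.subset_adjoin _ _ (Or.inl rfl)
  apply le_antisymm
  · rw [IntermediateField.adjoin_le_iff]
    rintro x ⟨p, rfl⟩
    show gg u p ∈ IntermediateField.adjoin k (gens u)
    induction p using MvPolynomial.induction_on with
    | C a =>
      rw [gg_C]
      have h1 : IntermediateField.adjoin k {u} ≤
          (IntermediateField.adjoin k (gens u)).comap
            (IsScalarTower.toAlgHom k K (FractionRing (MvPolynomial (Fin 2) K))) := by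
        rw [IntermediateField.adjoin_le_iff, Set.singleton_subset_iff]
        exact hu
      exact h1 a.2
    | add p q hp hq =>
      rw [map_add]
      exact add_mem hp hq
    | mul_X p i hp =>
      rw [map_mul, gg_X]
      refine mul_mem hp (IntermediateField.subset_adjoin _ _ ?_)
      fin_cases i
      · exact Or.inr (Or.inl rfl)
      · exact Or.inr (Or.inr rfl)
  · rw [IntermediateField.adjoin_le_iff]
    intro x hx
    refine IntermediateField.subset_adjoin _ _ ?_
    rcases hx with rfl | rfl | rfl
    · exact ⟨C ⟨u, IntermediateField.mem_adjoin_simple_self k u⟩, gg_C u _⟩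
    · exact ⟨X 0, gg_X u 0⟩
    · exact ⟨X 1, gg_X u 1⟩

attribute [local instance] MvPolynomial.algebraMvPolynomial in
lemma finrank_mv (F K : Type) [Field F] [Field K] [Algebra F K] :
    Module.finrank (MvPolynomial (Fin 2) F) (MvPolynomial (Fin 2) K) = Module.finrank F K := by
  unfold Module.finrank
  rw [rank_mvPolynomial_mvPolynomial, Cardinal.lift_id]

attribute [local instance] MvPolynomial.algebraMvPolynomial in
lemma finrank_fr : Module.finrank (IntermediateField.adjoin k (gens (K := K) u))
    (FractionRing (MvPolynomial (Fin 2) K)) =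
    Module.finrank (IntermediateField.adjoin k {u}) K := by
  set A := MvPolynomial (Fin 2) (IntermediateField.adjoin k {u}) with hA
  set L := FractionRing (MvPolynomial (Fin 2) K) with hL
  let f : FractionRing A →ₐ[k] L := IsFractionRing.liftAlgHom (gg_inj u)
  have hf : f.fieldRange = IntermediateField.adjoin k (gens u) := by
    rw [← adjoin_eq u]
    exact IsFractionRing.liftAlgHom_fieldRange (gg_inj u)
  let _ : Algebra (FractionRing A) L := f.toRingHom.toAlgebra
  have ht : IsScalarTower A (FractionRing A) L := by
    refine IsScalarTower.of_algebraMap_eq fun a => ?_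
    have h1 : algebraMap (FractionRing A) L (algebraMap A (FractionRing A) a) = gg u a :=
      IsFractionRing.lift_algebraMap (gg_inj u) a
    rw [h1]
    rfl
  have h2 : Module.finrank (FractionRing A) L =
      Module.finrank A (MvPolynomial (Fin 2) K) :=
    IsFractionRing.finrank_eq A (FractionRing A) (MvPolynomial (Fin 2) K) L
  have h3 : Module.finrank (FractionRing A) L = Module.finrank f.fieldRange L := by
    refine Algebra.finrank_eq_of_equiv_equiv
      (RingEquiv.ofBijective (f.rangeRestrict : FractionRing A →+* f.range)
        ⟨fun x y h => f.toRingHom.injective (congrArg Subtype.val h),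
          f.rangeRestrict_surjective⟩) (RingEquiv.refl L) ?_
    rfl
  rw [← hf, ← h3, h2, finrank_mv]

end

theorem pf_BCH : T_BCH := by
  intro k K _ _ _ u _
  exact finrank_fr u

end Pool.Agent.H68.BKH
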